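import Mathlib

set_option autoImplicit false

open MeasureTheory Metric Set
open scoped Real Pointwise

namespace Pool.Agent.H36L

/-- Three dimensional Euclidean space. -/
abbrev E3 := EuclideanSpace ℝ (Fin 3)

/-- The spherical cap `{y : t ≤ ⟨y, u⟩}` of the unit sphere. -/
def cap (u : E3) (t : ℝ) : Set (sphere (0 : E3) 1) := {y | t ≤ inner ℝ (y : E3) u}

/-- Surface area on the unit sphere. -/
noncomputable def area (A : Set (sphere (0 : E3) 1)) : ℝ :=
  ((volume : Measure E3).toSphere A).toReal

lemma area_univ : area univ = 4 * π := by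
  unfold area
  rw [Measure.toSphere_apply_univ, EuclideanSpace.volume_ball_fin_three]
  simp only [finrank_euclideanSpace, Fintype.card_fin, ENNReal.ofReal_one, one_pow, one_mul]
  rw [ENNReal.toReal_mul, ENNReal.toReal_ofReal (by positivity)]
  norm_num
  ring

lemma measurableSet_cap (u : E3) (t : ℝ) : MeasurableSet (cap u t) := by
  apply IsClosed.measurableSet
  exact isClosed_le continuous_const (by fun_prop)

lemma area_hemisphere (u : E3) (hu : u ≠ 0) : area (cap u 0) = 2 * π := by
  set μ := (volume : Measure E3).toSphere with hμ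
  set H := cap u 0 with hH
  have hHm : MeasurableSet H := measurableSet_cap u 0
  set H' := cap (-u) 0 with hH'
  have hHm' : MeasurableSet H' := measurableSet_cap (-u) 0
  -- the two hemispheres have the same area
  have hsym : μ H' = μ H := by
    rw [hμ, Measure.toSphere_apply' _ hHm, Measure.toSphere_apply' _ hHm']
    congr 1
    have h1 : (Ioo (0 : ℝ) 1 • ((↑) '' H' : Set E3)) = -(Ioo (0 : ℝ) 1 • ((↑) '' H : Set E3)) := by
      ext v
      constructor
      · rintro ⟨c, hc, w, ⟨y, hy, rfl⟩, rfl⟩
        refine Set.mem_neg.2 ⟨c, hc, -(y : E3), ⟨-y, ?_, by simp⟩, by simp⟩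
        simpa [hH, cap, hH'] using hy
      · intro hv
        obtain ⟨c, hc, w, ⟨y, hy, rfl⟩, hw⟩ := Set.mem_neg.1 hv
        refine ⟨c, hc, -(y : E3), ⟨-y, ?_, by simp⟩, ?_⟩
        · simpa [hH, cap, hH'] using hy
        · have : v = -(c • (y : E3)) := by rw [← neg_neg v]; exact congrArg _ hw.symm
          rw [this]; simp
    rw [h1, Measure.measure_neg]
  -- the equator is null
  have hnull : μ (H ∩ H') = 0 := by
    rw [hμ, Measure.toSphere_apply' _ (hHm.inter hHm')]
    have h2 : (volume : Measure E3) (Ioo (0 : ℝ) 1 • ((↑) '' (H ∩ H') : Set E3)) = 0 := by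
      have h3 : (Ioo (0 : ℝ) 1 • ((↑) '' (H ∩ H') : Set E3)) ⊆
          ((LinearMap.ker (innerₛₗ ℝ u) : Submodule ℝ E3) : Set E3) := by
        rintro v ⟨c, hc, w, ⟨y, ⟨hy1, hy2⟩, rfl⟩, rfl⟩
        have h4 : inner ℝ (y : E3) u = 0 := by
          have h5 : (0:ℝ) ≤ inner ℝ (y : E3) u := hy1
          have h6 : (0:ℝ) ≤ inner ℝ (y : E3) (-u) := hy2
          rw [inner_neg_right] at h6
          linarith
        simp only [SetLike.mem_coe, LinearMap.mem_ker, innerₛₗ_apply_apply, inner_smul_right]
        rw [real_inner_comm, h4, mul_zero]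
      refine measure_mono_null h3 (Measure.addHaar_submodule _ _ ?_)
      intro htop
      have h7 : u ∈ LinearMap.ker (innerₛₗ ℝ u) := by rw [htop]; trivial
      rw [LinearMap.mem_ker, innerₛₗ_apply_apply] at h7
      exact hu (inner_self_eq_zero.1 h7)
    rw [h2, mul_zero]
  have hunion : H ∪ H' = univ := by
    ext y
    simp only [mem_union, mem_univ, iff_true, hH, hH', cap, mem_setOf_eq, inner_neg_right]
    rcases le_total 0 (inner ℝ (y : E3) u) with h | h
    · exact Or.inl h
    · exact Or.inr (by linarith)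
  have hfin : μ univ ≠ ⊤ := measure_ne_top μ univ
  have hHfin : μ H ≠ ⊤ := measure_ne_top μ H
  have h8 : μ univ = μ H + μ H' := by
    have := measure_union_add_inter (μ := μ) H hHm'
    rw [hunion, hnull, add_zero] at this
    exact this
  have h9 : (μ univ).toReal = 4 * π := area_univ
  have h10 : (μ univ).toReal = (μ H).toReal + (μ H).toReal := by
    rw [h8, hsym, ENNReal.toReal_add hHfin hHfin]
  show (μ H).toReal = 2 * π
  linarith

end Pool.Agent.H36L
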