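import Pool.Agent.H36L.Gauss

set_option autoImplicit false

namespace Pool.Agent.H36L

/-- the representations of `25^k` by the form `X² + n Y²` -/
def T (n : ℤ) (k : ℕ) : Set (ℤ × ℤ) := {p | p.1 ^ 2 + n * p.2 ^ 2 = 25 ^ k}

lemma five_dvd_of_sq {a : ℤ} (h : (5 : ℤ) ∣ a ^ 2) : (5 : ℤ) ∣ a :=
  (show Prime (5 : ℤ) by norm_num).dvd_of_dvd_pow h

/-- two representations prime to `5` agree up to signs -/
lemma prim_eq {n : ℤ} (hn : 2 ≤ n) {k : ℕ} {X Y X' Y' : ℤ}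
    (h1 : X ^ 2 + n * Y ^ 2 = 25 ^ (k + 1)) (h2 : X' ^ 2 + n * Y' ^ 2 = 25 ^ (k + 1))
    (hX : ¬ (5 : ℤ) ∣ X) (hX' : ¬ (5 : ℤ) ∣ X') :
    (X' = X ∨ X' = -X) ∧ (Y' = Y ∨ Y' = -Y) := by
  have hp : Prime (5 : ℤ) := by norm_num
  have hpos : (0 : ℤ) < 25 ^ (k + 1) := by positivity
  have h525 : (5 : ℤ) ∣ 25 ^ (k + 1) := by
    rw [pow_succ]; exact Dvd.dvd.mul_left (by norm_num) _
  have hY' : ¬ (5 : ℤ) ∣ Y' := by
    intro hd
    apply hX'
    apply five_dvd_of_sq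
    have : X' ^ 2 = 25 ^ (k + 1) - n * Y' ^ 2 := by linarith
    rw [this]
    exact dvd_sub h525 (Dvd.dvd.mul_left (dvd_pow hd (by norm_num)) _)
  -- the product of the two cross terms
  have h3 : (X * Y' - X' * Y) * (X * Y' + X' * Y) = 25 ^ (k + 1) * (Y' ^ 2 - Y ^ 2) := by
    linear_combination Y' ^ 2 * h1 - Y ^ 2 * h2
  have h525k : (25 : ℤ) ^ (k + 1) = 5 ^ (2 * (k + 1)) := by rw [pow_mul]; norm_num
  have key : ∀ E : ℤ, (25 : ℤ) ^ (k + 1) ∣ E → n * E ^ 2 ≤ (25 ^ (k + 1)) ^ 2 → E = 0 := by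
    rintro E ⟨c, rfl⟩ hE
    by_contra hne
    have hc : c ≠ 0 := by rintro rfl; simp at hne
    have hc2 : 1 ≤ c ^ 2 := by
      have := Int.one_le_abs hc
      rw [← sq_abs]; nlinarith
    have : n * (25 ^ (k + 1) * c) ^ 2 = (25 ^ (k + 1)) ^ 2 * (n * c ^ 2) := by ring
    rw [this] at hE
    have h6 : (0 : ℤ) < (25 ^ (k + 1)) ^ 2 := by positivity
    nlinarith
  have hb1 : n * (X * Y' - X' * Y) ^ 2 ≤ (25 ^ (k + 1)) ^ 2 := by
    have : n * (X * Y' - X' * Y) ^ 2 + (X * X' + n * Y * Y') ^ 2 = (25 ^ (k + 1)) ^ 2 := by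
      have e : (25 ^ (k + 1) : ℤ) ^ 2 = (X ^ 2 + n * Y ^ 2) * (X' ^ 2 + n * Y' ^ 2) := by
        rw [h1, h2]; ring
      rw [e]; ring
    nlinarith [sq_nonneg (X * X' + n * Y * Y')]
  have hb2 : n * (X * Y' + X' * Y) ^ 2 ≤ (25 ^ (k + 1)) ^ 2 := by
    have : n * (X * Y' + X' * Y) ^ 2 + (X * X' - n * Y * Y') ^ 2 = (25 ^ (k + 1)) ^ 2 := by
      have e : (25 ^ (k + 1) : ℤ) ^ 2 = (X ^ 2 + n * Y ^ 2) * (X' ^ 2 + n * Y' ^ 2) := by
        rw [h1, h2]; ring
      rw [e]; ring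
    nlinarith [sq_nonneg (X * X' - n * Y * Y')]
  have h4 : (X * Y' - X' * Y) = 0 ∨ (X * Y' + X' * Y) = 0 := by
    by_cases hd : (5 : ℤ) ∣ (X * Y' - X' * Y)
    · left
      have hd2 : ¬ (5 : ℤ) ∣ (X * Y' + X' * Y) := by
        intro hd2
        have h5' : (5 : ℤ) ∣ 2 * (X * Y') := by
          have := dvd_add hd hd2
          have e : X * Y' - X' * Y + (X * Y' + X' * Y) = 2 * (X * Y') := by ring
          rwa [e] at this
        rcases hp.dvd_or_dvd h5' with h | h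
        · norm_num at h
        · rcases hp.dvd_or_dvd h with h | h
          · exact hX h
          · exact hY' h
      apply key _ _ hb1
      have hc : IsCoprime ((25 : ℤ) ^ (k + 1)) (X * Y' + X' * Y) := by
        rw [h525k]
        exact ((Prime.coprime_iff_not_dvd hp).2 hd2).pow_left
      exact hc.dvd_of_dvd_mul_right (Dvd.intro _ h3.symm)
    · right
      apply key _ _ hb2
      have hc : IsCoprime ((25 : ℤ) ^ (k + 1)) (X * Y' - X' * Y) := by
        rw [h525k]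
        exact ((Prime.coprime_iff_not_dvd hp).2 hd).pow_left
      exact hc.dvd_of_dvd_mul_left (Dvd.intro _ h3.symm)
  have h7 : Y' ^ 2 = Y ^ 2 := by
    have h8 : (25 : ℤ) ^ (k + 1) * (Y' ^ 2 - Y ^ 2) = 0 := by
      rw [← h3]
      rcases h4 with h | h <;> rw [h] <;> ring
    rcases mul_eq_zero.1 h8 with h | h
    · exact absurd h hpos.ne'
    · linarith
  have h9 : X' ^ 2 = X ^ 2 := by nlinarith
  exact ⟨sq_eq_sq_iff_eq_or_eq_neg.1 h9, sq_eq_sq_iff_eq_or_eq_neg.1 h7⟩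

lemma T_one (k : ℕ) : T 1 k = reps (2 * k) := by
  ext p
  simp only [T, reps, Set.mem_ofPred_eq, one_mul, pow_mul]
  norm_num

lemma T_zero (n : ℤ) (hn : 1 ≤ n) : T n 0 ⊆ {((1 : ℤ), (0 : ℤ)), (-1, 0), (0, 1), (0, -1)} := by
  rintro ⟨X, Y⟩ h
  have h1 : X ^ 2 + n * Y ^ 2 = 1 := by simpa [T] using h
  have hY : Y ^ 2 ≤ 1 := by nlinarith [sq_nonneg X, sq_nonneg Y]
  have hX : X ^ 2 ≤ 1 := by nlinarith [sq_nonneg X, sq_nonneg Y]
  have a1 : X ≤ 1 := by nlinarith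
  have a2 : -1 ≤ X := by nlinarith
  have a3 : Y ≤ 1 := by nlinarith
  have a4 : -1 ≤ Y := by nlinarith
  interval_cases X <;> interval_cases Y <;> simp_all

lemma T_bound (k : ℕ) : ∀ n : ℤ, 1 ≤ n → (T n k).Finite ∧ (T n k).ncard ≤ 4 * (2 * k + 1) := by
  induction k with
  | zero =>
    intro n hn
    have hf : ({((1 : ℤ), (0 : ℤ)), (-1, 0), (0, 1), (0, -1)} : Set (ℤ × ℤ)).Finite :=
      Set.toFinite _
    refine ⟨hf.subset (T_zero n hn), (Set.ncard_le_ncard (T_zero n hn) hf).trans ?_⟩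
    have : (({((1 : ℤ), (0 : ℤ)), (-1, 0), (0, 1), (0, -1)} : Finset (ℤ × ℤ)) : Set (ℤ × ℤ)) =
      {((1 : ℤ), (0 : ℤ)), (-1, 0), (0, 1), (0, -1)} := by simp
    rw [← this, Set.ncard_coe_finset]
    decide
  | succ k ih =>
    intro n hn
    rcases eq_or_lt_of_le hn with h1 | h1
    · rw [← h1, T_one]
      exact ⟨reps_finite _, (reps_ncard _).trans (by omega)⟩
    have hn2 : 2 ≤ n := by omega
    have h25 : (25 : ℤ) ^ (k + 1) = 25 * 25 ^ k := by rw [pow_succ]; ring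
    by_cases h5 : (5 : ℤ) ∣ n
    · obtain ⟨m, rfl⟩ := h5
      by_cases h5' : (5 : ℤ) ∣ m
      · obtain ⟨m', rfl⟩ := h5'
        have hm' : 1 ≤ m' := by omega
        obtain ⟨hf, hc⟩ := ih m' hm'
        have hsub : T (5 * (5 * m')) (k + 1) ⊆ (fun p : ℤ × ℤ => (5 * p.1, p.2)) '' T m' k := by
          rintro ⟨X, Y⟩ h
          have h2 : X ^ 2 + 5 * (5 * m') * Y ^ 2 = 25 ^ (k + 1) := h
          obtain ⟨x, rfl⟩ : (5 : ℤ) ∣ X := by
            apply five_dvd_of_sq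
            exact ⟨5 * 25 ^ k - 5 * m' * Y ^ 2, by rw [h25] at h2; linarith⟩
          refine ⟨(x, Y), ?_, rfl⟩
          show x ^ 2 + m' * Y ^ 2 = 25 ^ k
          rw [h25] at h2
          nlinarith
        exact ⟨(hf.image _).subset hsub, (Set.ncard_le_ncard hsub (hf.image _)).trans
          ((Set.ncard_image_le hf).trans (hc.trans (by omega)))⟩
      · obtain ⟨hf, hc⟩ := ih (5 * m) hn
        have hsub : T (5 * m) (k + 1) ⊆ (fun p : ℤ × ℤ => (5 * p.1, 5 * p.2)) '' T (5 * m) k := by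
          rintro ⟨X, Y⟩ h
          have h2 : X ^ 2 + 5 * m * Y ^ 2 = 25 ^ (k + 1) := h
          obtain ⟨x, rfl⟩ : (5 : ℤ) ∣ X := by
            apply five_dvd_of_sq
            exact ⟨5 * 25 ^ k - m * Y ^ 2, by rw [h25] at h2; linarith⟩
          obtain ⟨y, rfl⟩ : (5 : ℤ) ∣ Y := by
            have h6 : (5 : ℤ) ∣ m * Y ^ 2 := ⟨5 ^ 0 * 25 ^ k - x ^ 2, by
              rw [h25] at h2; simp only [pow_zero, one_mul]; linarith⟩
            rcases (show Prime (5 : ℤ) by norm_num).dvd_or_dvd h6 with h7 | h7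
            · exact absurd h7 h5'
            · exact five_dvd_of_sq h7
          refine ⟨(x, y), ?_, rfl⟩
          show x ^ 2 + 5 * m * y ^ 2 = 25 ^ k
          rw [h25] at h2
          nlinarith
        exact ⟨(hf.image _).subset hsub, (Set.ncard_le_ncard hsub (hf.image _)).trans
          ((Set.ncard_image_le hf).trans (hc.trans (by omega)))⟩
    · -- 5 does not divide n
      obtain ⟨hf, hc⟩ := ih n hn
      let P : Set (ℤ × ℤ) := {p | p ∈ T n (k + 1) ∧ ¬ (5 : ℤ) ∣ p.1}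
      have hP : ∃ F : Set (ℤ × ℤ), F.Finite ∧ F.ncard ≤ 4 ∧ P ⊆ F := by
        by_cases hne : P.Nonempty
        · obtain ⟨⟨X, Y⟩, hXY, hX⟩ := hne
          classical
          let F : Finset (ℤ × ℤ) := {(X, Y), (X, -Y), (-X, Y), (-X, -Y)}
          refine ⟨F, Finset.finite_toSet _, ?_, ?_⟩
          · rw [Set.ncard_coe_finset]
            exact Finset.card_le_four
          · rintro ⟨X', Y'⟩ ⟨hXY', hX'⟩
            obtain ⟨h8, h9⟩ := prim_eq (X := X) (Y := Y) (X' := X') (Y' := Y') hn2 hXY hXY' hX hX'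
            rcases h8 with h | h <;> rcases h9 with h' | h' <;> rw [h, h'] <;> simp [F]
        · exact ⟨∅, Set.finite_empty, by simp, by
            rw [Set.not_nonempty_iff_eq_empty.1 hne]⟩
      obtain ⟨F, hFf, hFc, hPF⟩ := hP
      have hsub : T n (k + 1) ⊆ ((fun p : ℤ × ℤ => (5 * p.1, 5 * p.2)) '' T n k) ∪ F := by
        rintro ⟨X, Y⟩ h
        have h2 : X ^ 2 + n * Y ^ 2 = 25 ^ (k + 1) := h
        by_cases hX : (5 : ℤ) ∣ X
        · left
          obtain ⟨x, rfl⟩ := hX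
          obtain ⟨y, rfl⟩ : (5 : ℤ) ∣ Y := by
            have h6 : (5 : ℤ) ∣ n * Y ^ 2 := ⟨5 * 25 ^ k - 5 * x ^ 2, by
              rw [h25] at h2; linarith⟩
            rcases (show Prime (5 : ℤ) by norm_num).dvd_or_dvd h6 with h7 | h7
            · exact absurd h7 h5
            · exact five_dvd_of_sq h7
          refine ⟨(x, y), ?_, rfl⟩
          show x ^ 2 + n * y ^ 2 = 25 ^ k
          rw [h25] at h2
          nlinarith
        · right
          exact hPF ⟨h, hX⟩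
      have hfu := (hf.image (fun p : ℤ × ℤ => (5 * p.1, 5 * p.2))).union hFf
      refine ⟨hfu.subset hsub, (Set.ncard_le_ncard hsub hfu).trans
        ((Set.ncard_union_le _ _).trans ?_)⟩
      have := Set.ncard_image_le (f := fun p : ℤ × ℤ => (5 * p.1, 5 * p.2)) hf
      omega

end Pool.Agent.H36L
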