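import Pool.Agent.H36L.Group

set_option autoImplicit false

open Matrix

namespace Pool.Agent.H36L

/-- the letters used for the free semigroup -/
def bl (b : Bool) : Fin 3 × Bool := if b then (0, true) else (1, true)

/-- reduction mod 5 of the letters -/
def M5 (b : Bool) : Matrix (Fin 3) (Fin 3) (ZMod 5) := (Int.castRingHom (ZMod 5)).mapMatrix (MZ (bl b))

/-- the direction of the image of `M5 b` -/
def a5 (b : Bool) : Fin 3 → ZMod 5 := if b then ![0, 1, 2] else ![2, 0, 1]

lemma step0 : ∀ b : Bool, ∃ c : ZMod 5, c ≠ 0 ∧ M5 b *ᵥ ![1, 1, 1] = c • a5 b := by decide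

lemma step1 : ∀ b b' : Bool, ∀ c : ZMod 5, c ≠ 0 → ∃ c' : ZMod 5, c' ≠ 0 ∧
    M5 b *ᵥ (c • a5 b') = c' • a5 b := by decide

lemma a5_inj : ∀ b b' : Bool, ∀ c c' : ZMod 5, c ≠ 0 → c • a5 b = c' • a5 b' → b = b' := by
  decide

/-- the word in the integer matrices -/
def W (l : List Bool) : Matrix (Fin 3) (Fin 3) ℤ := (l.map (fun b => MZ (bl b))).prod

lemma W_cons (b : Bool) (l : List Bool) : W (b :: l) = MZ (bl b) * W l := by
  simp [W]

lemma W_mod (b : Bool) (l : List Bool) : ∃ c : ZMod 5, c ≠ 0 ∧
    ((Int.castRingHom (ZMod 5)).mapMatrix (W (b :: l))) *ᵥ ![1, 1, 1] = c • a5 b := by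
  induction l generalizing b with
  | nil =>
    have : W [b] = MZ (bl b) := by simp [W]
    rw [this]
    exact step0 b
  | cons b' l ih =>
    obtain ⟨c, hc, h⟩ := ih b'
    rw [W_cons, map_mul, ← Matrix.mulVec_mulVec, h]
    exact step1 b b' c hc

lemma W_inj : ∀ l l' : List Bool, l.length = l'.length → W l = W l' → l = l' := by
  intro l
  induction l with
  | nil =>
    intro l' h _
    exact (List.length_eq_zero_iff.1 h.symm).symm
  | cons b l ih =>
    intro l' h hW
    cases l' with
    | nil => simp at h
    | cons b' l' =>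
      have hb : b = b' := by
        obtain ⟨c, hc, h1⟩ := W_mod b l
        obtain ⟨c', hc', h2⟩ := W_mod b' l'
        rw [hW] at h1
        exact a5_inj b b' c c' hc (h1.symm.trans h2)
      subst hb
      rw [W_cons, W_cons] at hW
      have h3 : (25 : ℤ) • W l = (25 : ℤ) • W l' := by
        have h4 := congrArg (fun M => (MZ (bl b))ᵀ * M) hW
        simp only [← Matrix.mul_assoc, MZ_transpose_mul, Matrix.smul_mul, Matrix.one_mul] at h4
        exact h4
      have h5 : W l = W l' := by
        ext i j
        have := congrFun (congrFun h3 i) j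
        simpa using this
      rw [ih l' (by simpa using h) h5]

lemma word_inj (k : ℕ) : Function.Injective
    (fun v : List.Vector Bool k => ((v.toList.map bl).map L).prod) := by
  intro v w h
  simp only [word_eq, List.length_map, List.Vector.toList_length] at h
  have h1 : cst (W v.toList) = cst (W w.toList) := by
    have h2 := congrArg (fun M => (5 : ℝ) ^ k • M) h
    simp only [smul_smul, ← mul_pow] at h2
    norm_num at h2
    simpa [W, List.map_map, Function.comp_def] using h2
  have h3 : W v.toList = W w.toList := by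
    ext i j
    have := congrFun (congrFun h1 i) j
    rw [cst_apply, cst_apply] at this
    exact_mod_cast this
  have h4 := W_inj _ _ (by simp) h3
  exact Subtype.ext h4

lemma two_pow_le_ncard (k : ℕ) : 2 ^ k ≤ (ball k).ncard := by
  have h1 : Set.range (fun v : List.Vector Bool k => ((v.toList.map bl).map L).prod) ⊆ ball k := by
    rintro g ⟨v, rfl⟩
    exact ⟨v.toList.map bl, by simp, rfl⟩
  have h2 := Set.ncard_le_ncard h1 (ball_finite k)
  have h3 : (Set.range (fun v : List.Vector Bool k => ((v.toList.map bl).map L).prod)).ncard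
      = 2 ^ k := by
    rw [← Set.image_univ, Set.ncard_image_of_injective _ (word_inj k), Set.ncard_univ,
      Nat.card_eq_fintype_card, card_vector, Fintype.card_bool]
  rw [← h3]
  exact h2

end Pool.Agent.H36L
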