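import Mathlib

set_option autoImplicit false

namespace Pool.Agent.H36L

/-- the candidate list `u π^j π̄^(m-j)` of Gaussian integers of norm `5^m` -/
def gz (m : ℕ) (p : Fin 4 × Fin (m + 1)) : GaussianInt :=
  (![1, -1, ⟨0, 1⟩, ⟨0, -1⟩] p.1) * (⟨2, 1⟩ : GaussianInt) ^ (p.2 : ℕ) *
    (⟨2, -1⟩ : GaussianInt) ^ (m - (p.2 : ℕ))

lemma gauss_unit (A B : ℤ) (h : A ^ 2 + B ^ 2 = 1) :
    ∃ i : Fin 4, (⟨A, B⟩ : GaussianInt) = ![1, -1, ⟨0, 1⟩, ⟨0, -1⟩] i := by
  have hA : A ≤ 1 := by nlinarith [sq_nonneg B, sq_nonneg A]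
  have hA' : -1 ≤ A := by nlinarith [sq_nonneg B, sq_nonneg A]
  have hB : B ≤ 1 := by nlinarith [sq_nonneg B, sq_nonneg A]
  have hB' : -1 ≤ B := by nlinarith [sq_nonneg B, sq_nonneg A]
  interval_cases A <;> interval_cases B <;> simp_all
  · exact ⟨1, rfl⟩
  · exact ⟨3, rfl⟩
  · exact ⟨2, rfl⟩
  · exact ⟨0, rfl⟩

lemma gauss_rep (m : ℕ) : ∀ A B : ℤ, A ^ 2 + B ^ 2 = 5 ^ m →
    ∃ p : Fin 4 × Fin (m + 1), gz m p = ⟨A, B⟩ := by
  induction m with
  | zero =>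
    intro A B h
    obtain ⟨i, hi⟩ := gauss_unit A B (by simpa using h)
    exact ⟨(i, 0), by simp [gz, hi]⟩
  | succ m ih =>
    intro A B h
    have h5 : (5 : ℤ) ∣ (2 * A + B) * (2 * A - B) := by
      refine ⟨A ^ 2 - 5 ^ m, ?_⟩
      rw [pow_succ (5 : ℤ)] at h
      linear_combination (-1 : ℤ) * h
    have hp : Prime (5 : ℤ) := by norm_num
    rcases hp.dvd_or_dvd h5 with ⟨c, hc⟩ | ⟨c, hc⟩
    · -- z = (2+i) z'
      have hB : B = 5 * c - 2 * A := by linarith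
      obtain ⟨p, hp'⟩ := ih c (2 * c - A) (by
        rw [pow_succ (5 : ℤ)] at h
        rw [hB] at h
        linarith)
      refine ⟨(p.1, p.2.succ), ?_⟩
      have e1 : (⟨A, B⟩ : GaussianInt) = ⟨2, 1⟩ * ⟨c, 2 * c - A⟩ := by
        ext
        · simp
        · simp [hB]; ring
      rw [e1, ← hp']
      simp only [gz, Fin.val_succ, pow_succ, Nat.add_sub_add_right]
      ring
    · have hB : B = 2 * A - 5 * c := by linarith
      obtain ⟨p, hp'⟩ := ih c (A - 2 * c) (by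
        rw [pow_succ (5 : ℤ)] at h
        rw [hB] at h
        linarith)
      refine ⟨(p.1, p.2.castSucc), ?_⟩
      have e1 : (⟨A, B⟩ : GaussianInt) = ⟨2, -1⟩ * ⟨c, A - 2 * c⟩ := by
        ext
        · simp
        · simp [hB]; ring
      rw [e1, ← hp']
      have h6 : m + 1 - (p.2 : ℕ) = (m - (p.2 : ℕ)) + 1 := by
        have := p.2.2
        omega
      simp only [gz, Fin.val_castSucc, h6, pow_succ]
      ring

/-- the representations of `5^m` as a sum of two squares -/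
def reps (m : ℕ) : Set (ℤ × ℤ) := {p | p.1 ^ 2 + p.2 ^ 2 = 5 ^ m}

lemma reps_subset (m : ℕ) : reps m ⊆ Set.range (fun p => ((gz m p).re, (gz m p).im)) := by
  rintro ⟨A, B⟩ h
  obtain ⟨p, hp⟩ := gauss_rep m A B h
  exact ⟨p, by simp [hp]⟩

lemma reps_finite (m : ℕ) : (reps m).Finite := (Set.finite_range _).subset (reps_subset m)

lemma reps_ncard (m : ℕ) : (reps m).ncard ≤ 4 * (m + 1) := by
  refine (Set.ncard_le_ncard (reps_subset m) (Set.finite_range _)).trans ?_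
  rw [← Set.image_univ]
  refine (Set.ncard_image_le Set.finite_univ).trans ?_
  rw [Set.ncard_univ]
  simp

end Pool.Agent.H36L
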