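import Pool.Agent.H36L.Gauss

set_option autoImplicit false

open Matrix

namespace Pool.Agent.H36L

/-- The rotations through the angle `α` with `cos α = -3/5`, `sin α = 4/5` about the three
coordinate axes. -/
noncomputable def R (i : Fin 3) : Matrix (Fin 3) (Fin 3) ℝ :=
  ![!![1, 0, 0; 0, -3/5, -4/5; 0, 4/5, -3/5],
    !![-3/5, 0, 4/5; 0, 1, 0; -4/5, 0, -3/5],
    !![-3/5, -4/5, 0; 4/5, -3/5, 0; 0, 0, 1]] i

/-- The six letters `R_i` and `R_i⁻¹`. -/
noncomputable def L (a : Fin 3 × Bool) : Matrix (Fin 3) (Fin 3) ℝ :=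
  if a.2 then R a.1 else (R a.1)⁻¹

/-- The ball `B_k`: all products of at most `k` letters. -/
def ball (k : ℕ) : Set (Matrix (Fin 3) (Fin 3) ℝ) :=
  {g | ∃ l : List (Fin 3 × Bool), l.length ≤ k ∧ (l.map L).prod = g}

/-- five times the letters, as integer matrices -/
def MZ (a : Fin 3 × Bool) : Matrix (Fin 3) (Fin 3) ℤ :=
  let M := ![!![5, 0, 0; 0, -3, -4; 0, 4, -3], !![-3, 0, 4; 0, 5, 0; -4, 0, -3],
    !![-3, -4, 0; 4, -3, 0; 0, 0, 5]] a.1
  if a.2 then M else Mᵀ

/-- the cast of integer matrices into real matrices -/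
noncomputable def cst : Matrix (Fin 3) (Fin 3) ℤ →+* Matrix (Fin 3) (Fin 3) ℝ :=
  (Int.castRingHom ℝ).mapMatrix

lemma cst_apply (M : Matrix (Fin 3) (Fin 3) ℤ) (i j : Fin 3) : cst M i j = (M i j : ℝ) := rfl

lemma R_inv (i : Fin 3) : (R i)⁻¹ = (R i)ᵀ := by
  apply Matrix.inv_eq_right_inv
  fin_cases i <;>
  · ext r c
    fin_cases r <;> fin_cases c <;>
      simp [R, Matrix.mul_apply, Fin.sum_univ_three] <;> norm_num

lemma L_eq (a : Fin 3 × Bool) : L a = (1 / 5 : ℝ) • cst (MZ a) := by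
  obtain ⟨i, b⟩ := a
  cases b
  · simp only [L, R_inv]
    fin_cases i <;>
    · ext r c
      fin_cases r <;> fin_cases c <;> simp [R, cst_apply, MZ] <;> norm_num
  · simp only [L]
    fin_cases i <;>
    · ext r c
      fin_cases r <;> fin_cases c <;> simp [R, cst_apply, MZ] <;> norm_num

lemma word_eq (l : List (Fin 3 × Bool)) :
    (l.map L).prod = ((1 / 5 : ℝ) ^ l.length) • cst (l.map MZ).prod := by
  induction l with
  | nil => simp
  | cons a l ih =>
    rw [List.map_cons, List.prod_cons, ih, L_eq, List.map_cons, List.prod_cons, map_mul,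
      List.length_cons, pow_succ']
    rw [smul_mul_smul_comm]

lemma MZ_mul_transpose (a : Fin 3 × Bool) : MZ a * (MZ a)ᵀ = (25 : ℤ) • 1 := by
  revert a; decide

lemma MZ_transpose_mul (a : Fin 3 × Bool) : (MZ a)ᵀ * MZ a = (25 : ℤ) • 1 := by
  revert a; decide

lemma MZ_det (a : Fin 3 × Bool) : (MZ a).det = 125 := by
  obtain ⟨i, b⟩ := a
  cases b <;> fin_cases i <;> simp [MZ, Matrix.det_fin_three]

lemma word_mul_transpose (l : List (Fin 3 × Bool)) :
    (l.map MZ).prod * ((l.map MZ).prod)ᵀ = ((25 : ℤ) ^ l.length) • 1 := by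
  induction l with
  | nil => simp
  | cons a l ih =>
    rw [List.map_cons, List.prod_cons, Matrix.transpose_mul, Matrix.mul_assoc,
      ← Matrix.mul_assoc _ _ (MZ a)ᵀ, ih, List.length_cons, pow_succ]
    rw [Matrix.smul_mul, Matrix.one_mul, Matrix.mul_smul, MZ_mul_transpose, smul_smul]

lemma word_transpose_mul (l : List (Fin 3 × Bool)) :
    ((l.map MZ).prod)ᵀ * (l.map MZ).prod = ((25 : ℤ) ^ l.length) • 1 := by
  induction l with
  | nil => simp
  | cons a l ih =>
    rw [List.map_cons, List.prod_cons, Matrix.transpose_mul, Matrix.mul_assoc,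
      ← Matrix.mul_assoc _ _ (l.map MZ).prod, MZ_transpose_mul, Matrix.smul_mul, Matrix.one_mul,
      Matrix.mul_smul, ih, smul_smul, List.length_cons, pow_succ']

lemma word_det (l : List (Fin 3 × Bool)) : ((l.map MZ).prod).det = (125 : ℤ) ^ l.length := by
  induction l with
  | nil => simp
  | cons a l ih =>
    rw [List.map_cons, List.prod_cons, Matrix.det_mul, ih, MZ_det, List.length_cons, pow_succ']

/-- every element of the ball is `5^-k` times an integral similarity of ratio `5^k` -/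
lemma ball_int {k : ℕ} {g : Matrix (Fin 3) (Fin 3) ℝ} (hg : g ∈ ball k) :
    ∃ G : Matrix (Fin 3) (Fin 3) ℤ, (5 : ℝ) ^ k • g = cst G ∧
      G * Gᵀ = ((25 : ℤ) ^ k) • 1 ∧ Gᵀ * G = ((25 : ℤ) ^ k) • 1 ∧ G.det = (125 : ℤ) ^ k := by
  obtain ⟨l, hl, rfl⟩ := hg
  obtain ⟨r, rfl⟩ := Nat.exists_eq_add_of_le hl
  refine ⟨((5 : ℤ) ^ r) • (l.map MZ).prod, ?_, ?_, ?_, ?_⟩
  · rw [word_eq, smul_smul]
    have h1 : (5 : ℝ) ^ (l.length + r) * (1 / 5 : ℝ) ^ l.length = (5 : ℝ) ^ r := by
      rw [pow_add, mul_comm, ← mul_assoc, ← mul_pow]; norm_num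
    rw [h1]
    ext i j
    rw [Matrix.smul_apply, cst_apply, cst_apply, Matrix.smul_apply, smul_eq_mul, smul_eq_mul]
    push_cast
    rfl
  · rw [Matrix.transpose_smul, Matrix.smul_mul, Matrix.mul_smul, word_mul_transpose, smul_smul,
      smul_smul]
    congr 1
    rw [← mul_pow, pow_add]
    norm_num
    ring
  · rw [Matrix.transpose_smul, Matrix.smul_mul, Matrix.mul_smul, word_transpose_mul, smul_smul,
      smul_smul]
    congr 1
    rw [← mul_pow, pow_add]
    norm_num
    ring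
  · rw [Matrix.det_smul, word_det, Fintype.card_fin, ← pow_mul, mul_comm r 3, pow_mul, pow_add]
    norm_num
    ring

lemma ball_finite (k : ℕ) : (ball k).Finite := by
  have h1 : ({l : List (Fin 3 × Bool) | l.length ≤ k}).Finite := List.finite_length_le _ k
  refine (h1.image (fun l => (l.map L).prod)).subset ?_
  rintro g ⟨l, hl, rfl⟩
  exact ⟨l, hl, rfl⟩

end Pool.Agent.H36L
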