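import Pool.Agent.H36L.Group

set_option autoImplicit false

open Matrix

namespace Pool.Agent.H36L

lemma sum_cyc {M : Type*} [AddCommMonoid M] (i : Fin 3) (f : Fin 3 → M) :
    ∑ j, f j = f i + f (i + 1) + f (i + 2) := by
  rw [Fin.sum_univ_three]
  fin_cases i
  · rfl
  · show f 0 + f 1 + f 2 = f 1 + f 2 + f 0
    rw [add_comm (f 1 + f 2) (f 0), add_assoc]
  · show f 0 + f 1 + f 2 = f 2 + f 0 + f 1
    rw [add_comm (f 0 + f 1) (f 2), add_assoc]

lemma row_eq {n : ℤ} {G : Matrix (Fin 3) (Fin 3) ℤ} (h : G * Gᵀ = n • 1) (i r c : Fin 3) :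
    G r i * G c i + G r (i + 1) * G c (i + 1) + G r (i + 2) * G c (i + 2) =
      if r = c then n else 0 := by
  have h1 := congrFun (congrFun h r) c
  rw [Matrix.mul_apply, sum_cyc i, Matrix.smul_apply, Matrix.one_apply] at h1
  simp only [Matrix.transpose_apply, smul_eq_mul] at h1
  rw [h1]
  split_ifs <;> simp

lemma col_eq {n : ℤ} {G : Matrix (Fin 3) (Fin 3) ℤ} (h : Gᵀ * G = n • 1) (i r c : Fin 3) :
    G i r * G i c + G (i + 1) r * G (i + 1) c + G (i + 2) r * G (i + 2) c =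
      if r = c then n else 0 := by
  have h1 := congrFun (congrFun h r) c
  rw [Matrix.mul_apply, sum_cyc i, Matrix.smul_apply, Matrix.one_apply] at h1
  simp only [Matrix.transpose_apply, smul_eq_mul] at h1
  rw [h1]
  split_ifs <;> simp

lemma det_cyc (i : Fin 3) (G : Matrix (Fin 3) (Fin 3) ℤ) (h1 : G i (i + 1) = 0)
    (h2 : G i (i + 2) = 0) :
    G.det = G i i * (G (i + 1) (i + 1) * G (i + 2) (i + 2) -
      G (i + 1) (i + 2) * G (i + 2) (i + 1)) := by
  rw [Matrix.det_fin_three]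
  fin_cases i
  · have a1 : G 0 1 = 0 := h1
    have a2 : G 0 2 = 0 := h2
    show _ = G 0 0 * (G 1 1 * G 2 2 - G 1 2 * G 2 1)
    rw [a1, a2]; ring
  · have a1 : G 1 2 = 0 := h1
    have a2 : G 1 0 = 0 := h2
    show _ = G 1 1 * (G 2 2 * G 0 0 - G 2 0 * G 0 2)
    rw [a1, a2]; ring
  · have a1 : G 2 0 = 0 := h1
    have a2 : G 2 1 = 0 := h2
    show _ = G 2 2 * (G 0 0 * G 1 1 - G 0 1 * G 1 0)
    rw [a1, a2]; ring

/-- the candidate matrices -/
def build (k : ℕ) (i : Fin 3) (e A B : ℤ) : Matrix (Fin 3) (Fin 3) ℤ :=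
  Matrix.of fun r c =>
    if r = i then (if c = i then e * 5 ^ k else 0)
    else if c = i then 0
    else if r = i + 1 then (if c = i + 1 then A else B)
    else (if c = i + 1 then -e * B else e * A)

lemma stabZ (k : ℕ) (G : Matrix (Fin 3) (Fin 3) ℤ) (h1 : G * Gᵀ = ((25 : ℤ) ^ k) • 1)
    (h2 : Gᵀ * G = ((25 : ℤ) ^ k) • 1) (h3 : G.det = (125 : ℤ) ^ k) (i : Fin 3)
    (h4 : G i i ^ 2 = 25 ^ k) :
    ∃ e : ℤ, (e = 1 ∨ e = -1) ∧ G = build k i e (G (i + 1) (i + 1)) (G (i + 1) (i + 2)) ∧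
      (G (i + 1) (i + 1)) ^ 2 + (G (i + 1) (i + 2)) ^ 2 = 5 ^ (2 * k) := by
  have n1 : i ≠ i + 1 := by fin_cases i <;> decide
  have n2 : i ≠ i + 2 := by fin_cases i <;> decide
  have n3 : i + 1 ≠ i + 2 := by fin_cases i <;> decide
  have r0 := row_eq h1 i i i
  have r1 := row_eq h1 i (i + 1) (i + 1)
  have r3 := row_eq h1 i (i + 1) (i + 2)
  have c0 := col_eq h2 i i i
  rw [if_pos rfl] at r0 r1 c0
  rw [if_neg n3] at r3
  have z1 : G i (i + 1) = 0 := by nlinarith [sq_nonneg (G i (i + 1)), sq_nonneg (G i (i + 2))]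
  have z2 : G i (i + 2) = 0 := by nlinarith [sq_nonneg (G i (i + 1)), sq_nonneg (G i (i + 2))]
  have z3 : G (i + 1) i = 0 := by nlinarith [sq_nonneg (G (i + 1) i), sq_nonneg (G (i + 2) i)]
  have z4 : G (i + 2) i = 0 := by nlinarith [sq_nonneg (G (i + 1) i), sq_nonneg (G (i + 2) i)]
  have hd := det_cyc i G z1 z2
  rw [h3] at hd
  rw [z3] at r1 r3
  have hp : (0 : ℤ) < 5 ^ k := by positivity
  have h25 : (25 : ℤ) ^ k = 5 ^ k * 5 ^ k := by rw [← mul_pow]; norm_num
  have h125 : (125 : ℤ) ^ k = 5 ^ k * 25 ^ k := by rw [← mul_pow]; norm_num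
  have hp25 : (0 : ℤ) < 25 ^ k := by positivity
  have he : G i i = 5 ^ k ∨ G i i = -5 ^ k := by
    apply sq_eq_sq_iff_eq_or_eq_neg.1
    rw [h4, h25]; ring
  obtain ⟨e, he1, he2⟩ : ∃ e : ℤ, (e = 1 ∨ e = -1) ∧ G i i = e * 5 ^ k := by
    rcases he with h | h
    · exact ⟨1, Or.inl rfl, by rw [h, one_mul]⟩
    · exact ⟨-1, Or.inr rfl, by rw [h]; ring⟩
  have hee : e * e = 1 := by rcases he1 with h | h <;> rw [h] <;> norm_num
  set A := G (i + 1) (i + 1) with hA
  set B := G (i + 1) (i + 2) with hB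
  set C := G (i + 2) (i + 1) with hC
  set D := G (i + 2) (i + 2) with hD
  have hdet : A * D - B * C = e * 25 ^ k := by
    have h5 : (5 : ℤ) ^ k * 25 ^ k = (e * 5 ^ k) * (A * D - B * C) := by
      rw [← h125, hd, he2]
    have h6 : (25 : ℤ) ^ k = e * (A * D - B * C) := by
      have : (5 : ℤ) ^ k * 25 ^ k = 5 ^ k * (e * (A * D - B * C)) := by rw [h5]; ring
      exact mul_left_cancel₀ hp.ne' this
    rw [h6, ← mul_assoc, hee, one_mul]
  have hAB : A * A + B * B = 25 ^ k := by linarith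
  have hCD : A * C + B * D = 0 := by linarith
  have hDe : D = e * A := by
    have : (25 : ℤ) ^ k * D = 25 ^ k * (e * A) := by
      rw [← hAB]
      linear_combination A * hdet + B * hCD - e * A * hAB
    exact mul_left_cancel₀ hp25.ne' this
  have hCe : C = -e * B := by
    have : (25 : ℤ) ^ k * C = 25 ^ k * (-e * B) := by
      rw [← hAB]
      linear_combination A * hCD - B * hdet + e * B * hAB
    exact mul_left_cancel₀ hp25.ne' this
  refine ⟨e, he1, ?_, ?_⟩
  · ext r c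
    simp only [build, Matrix.of_apply]
    have hcases : ∀ r : Fin 3, r = i ∨ r = i + 1 ∨ r = i + 2 := by
      intro r; fin_cases i <;> fin_cases r <;> decide
    rcases hcases r with rfl | rfl | rfl
    · rcases hcases c with rfl | rfl | rfl
      · simp [he2]
      · simp [z1]
      · simp [z2]
    · rcases hcases c with rfl | rfl | rfl
      · simp [z3, n1.symm]
      · simp [n1.symm, hA]
      · simp [n2.symm, n3.symm, n1.symm, hB]
    · rcases hcases c with rfl | rfl | rfl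
      · simp [z4, n2.symm]
      · rw [if_neg n2.symm, if_neg n1.symm, if_neg n3.symm, if_pos rfl]
        exact hCe
      · rw [if_neg n2.symm, if_neg n2.symm, if_neg n3.symm, if_neg n3.symm]
        exact hDe
  · rw [pow_mul]
    norm_num
    linarith

/-- the elements of the ball which preserve the `i`-th axis -/
def axis (k : ℕ) (i : Fin 3) : Set (Matrix (Fin 3) (Fin 3) ℝ) :=
  {g | g ∈ ball k ∧ (g i i) ^ 2 = 1}

lemma axis_ncard (k : ℕ) (i : Fin 3) : (axis k i).ncard ≤ 8 * (2 * k + 1) := by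
  classical
  let S : Set (ℤ × (ℤ × ℤ)) := ({1, -1} : Set ℤ) ×ˢ reps (2 * k)
  have hSf : S.Finite := (Set.toFinite _).prod (reps_finite _)
  have hsub : axis k i ⊆
      (fun p : ℤ × (ℤ × ℤ) => ((1 / 5 : ℝ) ^ k) • cst (build k i p.1 p.2.1 p.2.2)) '' S := by
    rintro g ⟨hg, hgi⟩
    obtain ⟨G, e1, e2, e3, e4⟩ := ball_int hg
    have hGi : G i i ^ 2 = 25 ^ k := by
      have h5 : ((G i i : ℤ) : ℝ) = 5 ^ k * g i i := by
        rw [← cst_apply, ← e1, Matrix.smul_apply, smul_eq_mul]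
      have h6 : (((G i i) ^ 2 : ℤ) : ℝ) = ((25 ^ k : ℤ) : ℝ) := by
        push_cast
        rw [h5, mul_pow, hgi, mul_one, ← pow_mul, mul_comm k 2, pow_mul]
        norm_num
      exact_mod_cast h6
    obtain ⟨e, he, hG, hr⟩ := stabZ k G e2 e3 e4 i hGi
    refine ⟨(e, (G (i + 1) (i + 1), G (i + 1) (i + 2))), ⟨?_, hr⟩, ?_⟩
    · rcases he with h | h <;> simp [h]
    · show ((1 / 5 : ℝ) ^ k) • cst (build k i e (G (i + 1) (i + 1)) (G (i + 1) (i + 2))) = g
      rw [← hG, ← e1, smul_smul, ← mul_pow]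
      norm_num
  refine (Set.ncard_le_ncard hsub (hSf.image _)).trans ?_
  refine (Set.ncard_image_le hSf).trans ?_
  have h7 : S.ncard = ({1, -1} : Set ℤ).ncard * (reps (2 * k)).ncard := by
    exact Set.ncard_prod
  rw [h7]
  have h8 : ({1, -1} : Set ℤ).ncard = 2 := Set.ncard_pair (by norm_num)
  have h9 := reps_ncard (2 * k)
  rw [h8]
  omega

end Pool.Agent.H36L
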