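import Pool.Agent.H36L.Stab
import Pool.Agent.H36L.Forms

set_option autoImplicit false

open Matrix

namespace Pool.Agent.H36L

/-! ### the ball is closed under the obvious operations -/

lemma ball_mul {a b : ℕ} {g h : Matrix (Fin 3) (Fin 3) ℝ} (hg : g ∈ ball a) (hh : h ∈ ball b) :
    g * h ∈ ball (a + b) := by
  obtain ⟨l, hl, rfl⟩ := hg
  obtain ⟨l', hl', rfl⟩ := hh
  exact ⟨l ++ l', by rw [List.length_append]; omega, by simp⟩

lemma L_transpose (a : Fin 3 × Bool) : (L a)ᵀ = L (a.1, !a.2) := by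
  obtain ⟨i, b⟩ := a
  cases b
  · simp [L, R_inv]
  · simp [L, R_inv]

lemma ball_transpose {k : ℕ} {g : Matrix (Fin 3) (Fin 3) ℝ} (hg : g ∈ ball k) : gᵀ ∈ ball k := by
  obtain ⟨l, hl, rfl⟩ := hg
  refine ⟨(l.map (fun a => (a.1, !a.2))).reverse, by simpa using hl, ?_⟩
  rw [Matrix.transpose_list_prod, List.map_reverse, List.map_map, List.map_map]
  congr 2
  apply List.map_congr_left
  intro a _
  simp [L_transpose]

/-- the half turn about the `i`-th axis -/
noncomputable def S (i : Fin 3) : Matrix (Fin 3) (Fin 3) ℝ :=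
  Matrix.diagonal fun j => if j = i then 1 else -1

lemma S_mul_S (i : Fin 3) : S i * S i = 1 := by
  rw [S, Matrix.diagonal_mul_diagonal, ← Matrix.diagonal_one]
  congr 1
  ext j
  split_ifs <;> norm_num

/-- the corresponding permutation of the letters -/
def fl (i : Fin 3) (a : Fin 3 × Bool) : Fin 3 × Bool := (a.1, if a.1 = i then a.2 else !a.2)

lemma MZ_fl' : ∀ (i : Fin 3) (a : Fin 3 × Bool), MZ (fl i a) =
    (Matrix.diagonal fun j => if j = i then 1 else -1) * MZ a *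
      (Matrix.diagonal fun j => if j = i then 1 else -1) := by
  decide

lemma MZ_fl (i : Fin 3) (a : Fin 3 × Bool) (r c : Fin 3) :
    MZ (fl i a) r c = (if r = i then 1 else -1) * MZ a r c * (if c = i then 1 else -1) := by
  rw [MZ_fl', Matrix.mul_diagonal, Matrix.diagonal_mul]

lemma L_fl (i : Fin 3) (a : Fin 3 × Bool) : L (fl i a) = S i * L a * S i := by
  ext r c
  rw [S, Matrix.mul_diagonal, Matrix.diagonal_mul, L_eq, L_eq, Matrix.smul_apply,
    Matrix.smul_apply, cst_apply, cst_apply, MZ_fl]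
  push_cast
  simp only [smul_eq_mul]
  ring

lemma ball_conj {k : ℕ} (i : Fin 3) {g : Matrix (Fin 3) (Fin 3) ℝ} (hg : g ∈ ball k) :
    S i * g * S i ∈ ball k := by
  obtain ⟨l, hl, rfl⟩ := hg
  refine ⟨l.map (fl i), by simpa using hl, ?_⟩
  clear hl
  induction l with
  | nil => simp [S_mul_S]
  | cons a l ih =>
    rw [List.map_cons, List.map_cons, List.prod_cons, ih, L_fl, List.map_cons, List.prod_cons]
    calc S i * L a * S i * (S i * (List.map L l).prod * S i)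
        = S i * L a * (S i * S i) * (List.map L l).prod * S i := by noncomm_ring
      _ = S i * (L a * (List.map L l).prod) * S i := by rw [S_mul_S]; noncomm_ring

lemma ball_orth {k : ℕ} {g : Matrix (Fin 3) (Fin 3) ℝ} (hg : g ∈ ball k) : g * gᵀ = 1 := by
  obtain ⟨l, hl, rfl⟩ := hg
  clear hl
  have hL : ∀ a : Fin 3 × Bool, L a * (L a)ᵀ = 1 := by
    intro a
    have h1 : cst (MZ a) * (cst (MZ a))ᵀ = (25 : ℝ) • (1 : Matrix (Fin 3) (Fin 3) ℝ) := by
      have h2 := congrArg cst (MZ_mul_transpose a)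
      rw [map_mul] at h2
      have h3 : cst (MZ a)ᵀ = (cst (MZ a))ᵀ := rfl
      rw [h3] at h2
      rw [h2]
      ext r c
      rw [cst_apply, Matrix.smul_apply, Matrix.smul_apply, Matrix.one_apply, Matrix.one_apply]
      split_ifs <;> simp
    rw [L_eq, Matrix.transpose_smul, Matrix.smul_mul, Matrix.mul_smul, h1, smul_smul, smul_smul]
    norm_num
  induction l with
  | nil => simp
  | cons a l ih =>
    rw [List.map_cons, List.prod_cons, Matrix.transpose_mul, Matrix.mul_assoc,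
      ← Matrix.mul_assoc _ _ (L a)ᵀ, ih, Matrix.one_mul, hL]

/-! ### the symmetry argument -/

lemma half_count {α : Type*} {s : Set α} (hs : s.Finite) (φ : α → α)
    (hφ : ∀ g ∈ s, φ g ∈ s) (hφφ : ∀ g ∈ s, φ (φ g) = g) (f : α → ℝ)
    (hf : ∀ g ∈ s, f (φ g) = -f g) :
    2 * ({g | g ∈ s ∧ 0 ≤ f g}).ncard = s.ncard + ({g | g ∈ s ∧ f g = 0}).ncard := by
  have h1 : ({g | g ∈ s ∧ 0 ≤ f g}).ncard = ({g | g ∈ s ∧ f g ≤ 0}).ncard := by
    refine Set.ncard_congr (fun g _ => φ g) ?_ ?_ ?_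
    · rintro g ⟨hg, h0⟩
      exact ⟨hφ g hg, by rw [hf g hg]; linarith⟩
    · rintro g h ⟨hg, _⟩ ⟨hh, _⟩ hgh
      rw [← hφφ g hg, ← hφφ h hh]
      exact congrArg φ hgh
    · rintro g ⟨hg, h0⟩
      exact ⟨φ g, ⟨hφ g hg, by rw [hf g hg]; linarith⟩, hφφ g hg⟩
  have h2 : {g | g ∈ s ∧ 0 ≤ f g} ∪ {g | g ∈ s ∧ f g ≤ 0} = s := by
    ext g
    constructor
    · rintro (h | h)
      · exact h.1
      · exact h.1
    · intro hg
      rcases le_total 0 (f g) with h | h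
      · exact Or.inl ⟨hg, h⟩
      · exact Or.inr ⟨hg, h⟩
  have h3 : {g | g ∈ s ∧ 0 ≤ f g} ∩ {g | g ∈ s ∧ f g ≤ 0} = {g | g ∈ s ∧ f g = 0} := by
    ext g
    constructor
    · rintro ⟨⟨hg, h⟩, ⟨_, h'⟩⟩
      exact ⟨hg, le_antisymm h' h⟩
    · rintro ⟨hg, h⟩
      exact ⟨⟨hg, h.ge⟩, ⟨hg, h.le⟩⟩
  have h4 := Set.ncard_union_add_ncard_inter {g | g ∈ s ∧ 0 ≤ f g} {g | g ∈ s ∧ f g ≤ 0}
    (hs.subset fun g h => h.1) (hs.subset fun g h => h.1)
  rw [h2, h3] at h4
  omega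

/-- the group elements with `(g y)_i = 0` -/
def Zs (k : ℕ) (i : Fin 3) (y : Fin 3 → ℝ) : Set (Matrix (Fin 3) (Fin 3) ℝ) :=
  {g | g ∈ ball k ∧ (g *ᵥ y) i = 0}

lemma count_nonneg (k : ℕ) (i : Fin 3) (y : Fin 3 → ℝ) (hy : y i = 0) :
    2 * ({g | g ∈ ball k ∧ 0 ≤ (g *ᵥ y) i}).ncard = (ball k).ncard + (Zs k i y).ncard := by
  have hSy : S i *ᵥ y = -y := by
    ext j
    rw [S, Matrix.mulVec_diagonal]
    by_cases h : j = i
    · subst h; simp [hy]
    · simp [h]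
  refine half_count (ball_finite k) (fun g => S i * g * S i) (fun g hg => ball_conj i hg) ?_
    (fun g => (g *ᵥ y) i) ?_
  · intro g _
    calc S i * (S i * g * S i) * S i = (S i * S i) * g * (S i * S i) := by noncomm_ring
      _ = g := by rw [S_mul_S]; simp
  · intro g _
    show ((S i * g * S i) *ᵥ y) i = -((g *ᵥ y) i)
    rw [← Matrix.mulVec_mulVec, hSy, Matrix.mulVec_neg, ← Matrix.mulVec_mulVec, Pi.neg_apply, S,
      Matrix.mulVec_diagonal]
    simp

lemma count_transpose (k : ℕ) (P : Matrix (Fin 3) (Fin 3) ℝ → Prop) :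
    ({g | g ∈ ball k ∧ P gᵀ}).ncard = ({g | g ∈ ball k ∧ P g}).ncard := by
  refine Set.ncard_congr (fun g _ => gᵀ) ?_ ?_ ?_
  · rintro g ⟨hg, h⟩
    exact ⟨ball_transpose hg, h⟩
  · rintro g h _ _ hgh
    exact Matrix.transpose_injective hgh
  · rintro g ⟨hg, h⟩
    exact ⟨gᵀ, ⟨ball_transpose hg, by simpa using h⟩, by simp⟩

end Pool.Agent.H36L
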