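import Pool.Agent.H36L.Sym
import Pool.Agent.H36L.Free

set_option autoImplicit false

open Matrix

namespace Pool.Agent.H36L

lemma axis_finite (k : ℕ) (i : Fin 3) : (axis k i).Finite := (ball_finite k).subset fun _ h => h.1

lemma fibre (k : ℕ) (i : Fin 3) (v : Fin 3 → ℝ) :
    ({g : Matrix (Fin 3) (Fin 3) ℝ | g ∈ ball k ∧ g i = v}).ncard ≤ 8 * (4 * k + 1) := by
  rcases Set.eq_empty_or_nonempty {g : Matrix (Fin 3) (Fin 3) ℝ | g ∈ ball k ∧ g i = v} with
    h | ⟨g0, hg0, hv⟩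
  · rw [h]; simp
  · have h1 : ({g : Matrix (Fin 3) (Fin 3) ℝ | g ∈ ball k ∧ g i = v}).ncard ≤
        (axis (2 * k) i).ncard := by
      refine Set.ncard_le_ncard_of_injOn (fun g => g * g0ᵀ) ?_ ?_ (axis_finite _ _)
      · rintro g ⟨hg, hgv⟩
        refine ⟨?_, ?_⟩
        · have := ball_mul hg (ball_transpose hg0)
          rwa [← two_mul] at this
        · have h5 : (g * g0ᵀ) i i = 1 := by
            have h6 := congrFun (congrFun (ball_orth hg0) i) i
            rw [Matrix.mul_apply, Matrix.one_apply_eq] at h6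
            rw [Matrix.mul_apply, ← h6]
            apply Finset.sum_congr rfl
            intro j _
            rw [hgv, hv]
          show ((g * g0ᵀ) i i) ^ 2 = 1
          rw [h5]; norm_num
      · rintro g _ h _ hgh
        have h7 : g0ᵀ * g0 = 1 := by
          have := ball_orth (ball_transpose hg0)
          simpa using this
        have h8 := congrArg (· * g0) hgh
        simpa [Matrix.mul_assoc, h7] using h8
    have := axis_ncard (2 * k) i
    omega

lemma Zs_int {k : ℕ} {i : Fin 3} {y : Fin 3 → ℝ} (hy : y i = 0)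
    {g : Matrix (Fin 3) (Fin 3) ℝ} (hg : g ∈ Zs k i y) :
    ∃ G : Matrix (Fin 3) (Fin 3) ℤ, (5 : ℝ) ^ k • g = cst G ∧
      G i i ^ 2 + G i (i + 1) ^ 2 + G i (i + 2) ^ 2 = 25 ^ k ∧
      (G i (i + 1) : ℝ) * y (i + 1) + (G i (i + 2) : ℝ) * y (i + 2) = 0 := by
  obtain ⟨hgb, h0⟩ := hg
  obtain ⟨G, e1, e2, -, -⟩ := ball_int hgb
  refine ⟨G, e1, ?_, ?_⟩
  · have r0 := row_eq e2 i i i
    rw [if_pos rfl] at r0
    linarith
  · have h1 : ∀ j, (G i j : ℝ) = 5 ^ k * g i j := by
      intro j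
      rw [← cst_apply, ← e1, Matrix.smul_apply, smul_eq_mul]
    rw [h1, h1]
    have h2 : (g *ᵥ y) i = g i i * y i + g i (i + 1) * y (i + 1) + g i (i + 2) * y (i + 2) := by
      show ∑ j, g i j * y j = _
      rw [sum_cyc i]
    rw [h2, hy] at h0
    linear_combination (5 : ℝ) ^ k * h0

lemma Zs_irr {k : ℕ} {i : Fin 3} {y : Fin 3 → ℝ} (hy : y i = 0)
    (hirr : ∀ p q : ℤ, (p : ℝ) * y (i + 1) + (q : ℝ) * y (i + 2) = 0 → p = 0 ∧ q = 0) :
    Zs k i y ⊆ axis k i := by
  intro g hg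
  obtain ⟨G, e1, e2, e3⟩ := Zs_int hy hg
  obtain ⟨h1, h2⟩ := hirr _ _ e3
  rw [h1, h2] at e2
  refine ⟨hg.1, ?_⟩
  have h5 : ((G i i : ℤ) : ℝ) = 5 ^ k * g i i := by
    rw [← cst_apply, ← e1, Matrix.smul_apply, smul_eq_mul]
  have h6 : ((G i i : ℤ) : ℝ) ^ 2 = 25 ^ k := by
    have : G i i ^ 2 = 25 ^ k := by linarith
    exact_mod_cast this
  have h8 : ((5 : ℝ) ^ k) ^ 2 = 25 ^ k := by
    rw [← pow_mul, mul_comm k 2, pow_mul]; norm_num
  rw [h5, mul_pow, h8] at h6
  have h7 : (25 : ℝ) ^ k ≠ 0 := by positivity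
  exact mul_left_cancel₀ h7 (by rw [h6, mul_one])

lemma Zs_rat (k : ℕ) (i : Fin 3) (y : Fin 3 → ℝ) (hy : y i = 0) (hy0 : y ≠ 0) (a b : ℤ)
    (hab : IsCoprime a b) (h : (a : ℝ) * y (i + 1) + (b : ℝ) * y (i + 2) = 0) :
    (Zs k i y).ncard ≤ (8 * (4 * k + 1)) * (4 * (2 * k + 1)) := by
  classical
  have hn : 1 ≤ a ^ 2 + b ^ 2 := by
    by_contra hlt
    have ha : a = 0 := by nlinarith [sq_nonneg a, sq_nonneg b]
    have hb : b = 0 := by nlinarith [sq_nonneg a, sq_nonneg b]
    subst ha hb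
    obtain ⟨s, t, hst⟩ := hab
    simp at hst
  obtain ⟨hTf, hTc⟩ := T_bound k (a ^ 2 + b ^ 2) hn
  have hfin : (Zs k i y).Finite := (ball_finite k).subset fun _ h => h.1
  let F : ℤ × ℤ → (Fin 3 → ℝ) := fun p j =>
    (1 / 5 : ℝ) ^ k * (if j = i then (p.1 : ℝ) else if j = i + 1 then (p.2 : ℝ) * a else p.2 * b)
  have hrows : ∀ g ∈ Zs k i y, g i ∈ F '' T (a ^ 2 + b ^ 2) k := by
    intro g hg
    obtain ⟨G, e1, e2, e3⟩ := Zs_int hy hg
    set Y1 := G i (i + 1) with hY1
    set Y2 := G i (i + 2) with hY2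
    have h1 : ((Y1 * b - Y2 * a : ℤ) : ℝ) * y (i + 1) = 0 := by
      push_cast
      linear_combination (b : ℝ) * e3 - (Y2 : ℝ) * h
    have h2 : ((Y1 * b - Y2 * a : ℤ) : ℝ) * y (i + 2) = 0 := by
      push_cast
      linear_combination -(a : ℝ) * e3 + (Y1 : ℝ) * h
    have h3 : Y1 * b - Y2 * a = 0 := by
      by_contra hne
      have hne' : ((Y1 * b - Y2 * a : ℤ) : ℝ) ≠ 0 := by exact_mod_cast hne
      apply hy0
      have hcases : ∀ r : Fin 3, r = i ∨ r = i + 1 ∨ r = i + 2 := by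
        intro r; fin_cases i <;> fin_cases r <;> decide
      ext r
      rcases hcases r with rfl | rfl | rfl
      · simpa using hy
      · simpa using (mul_eq_zero.1 h1).resolve_left hne'
      · simpa using (mul_eq_zero.1 h2).resolve_left hne'
    obtain ⟨s, t, hst⟩ := hab
    obtain ⟨m, m1, m2⟩ : ∃ m : ℤ, m * a = Y1 ∧ m * b = Y2 :=
      ⟨Y1 * s + Y2 * t, by linear_combination Y1 * hst - t * h3,
        by linear_combination Y2 * hst + s * h3⟩
    refine ⟨(G i i, m), ?_, ?_⟩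
    · show G i i ^ 2 + (a ^ 2 + b ^ 2) * m ^ 2 = 25 ^ k
      rw [← e2, ← m1, ← m2]
      ring
    · have hcases : ∀ r : Fin 3, r = i ∨ r = i + 1 ∨ r = i + 2 := by
        intro r; fin_cases i <;> fin_cases r <;> decide
      have n1 : i + 1 ≠ i := by fin_cases i <;> decide
      have n2 : i + 2 ≠ i := by fin_cases i <;> decide
      have n3 : i + 2 ≠ i + 1 := by fin_cases i <;> decide
      have hG : ∀ j, g i j = (1 / 5 : ℝ) ^ k * (G i j : ℝ) := by
        intro j
        have : (G i j : ℝ) = 5 ^ k * g i j := by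
          rw [← cst_apply, ← e1, Matrix.smul_apply, smul_eq_mul]
        rw [this, ← mul_assoc, ← mul_pow]
        norm_num
      ext r
      rcases hcases r with rfl | rfl | rfl
      · simp [F, hG]
      · rw [hG, ← hY1, ← m1]
        simp only [F, if_neg n1, if_true]
        push_cast
        ring
      · rw [hG, ← hY2, ← m2]
        simp only [F, if_neg n2, if_neg n3]
        push_cast
        ring
  have hcard : hfin.toFinset.card ≤ (8 * (4 * k + 1)) *
      (hfin.toFinset.image (fun g : Matrix (Fin 3) (Fin 3) ℝ => g i)).card := by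
    apply Finset.card_le_mul_card_image
    intro v _
    refine le_trans ?_ (fibre k i v)
    rw [← Set.ncard_coe_finset]
    apply Set.ncard_le_ncard
    · intro g hg
      rw [Finset.coe_filter] at hg
      exact ⟨((Set.Finite.mem_toFinset hfin).1 hg.1).1, hg.2⟩
    · exact (ball_finite k).subset fun _ h => h.1
  have himg : (hfin.toFinset.image (fun g : Matrix (Fin 3) (Fin 3) ℝ => g i)).card ≤
      4 * (2 * k + 1) := by
    rw [← Set.ncard_coe_finset]
    refine (Set.ncard_le_ncard ?_ (hTf.image F)).trans ((Set.ncard_image_le hTf).trans hTc)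
    intro v hv
    rw [Finset.coe_image] at hv
    obtain ⟨g, hg, rfl⟩ := hv
    exact hrows g ((Set.Finite.mem_toFinset hfin).1 hg)
  rw [Set.ncard_eq_toFinset_card _ hfin]
  exact hcard.trans (Nat.mul_le_mul_left _ himg)

/-- the general upper bound for the boundary elements -/
lemma Zs_le (k : ℕ) (i : Fin 3) (y : Fin 3 → ℝ) (hy : y i = 0) (hy0 : y ≠ 0) :
    (Zs k i y).ncard ≤ (8 * (4 * k + 1)) * (4 * (2 * k + 1)) := by
  by_cases hirr : ∀ p q : ℤ, (p : ℝ) * y (i + 1) + (q : ℝ) * y (i + 2) = 0 → p = 0 ∧ q = 0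
  · have h1 := Set.ncard_le_ncard (Zs_irr (k := k) hy hirr) (axis_finite k i)
    have h2 := axis_ncard k i
    nlinarith
  · push Not at hirr
    obtain ⟨p, q, hpq, hne⟩ := hirr
    have hg : 0 < Int.gcd p q := by
      rw [Nat.pos_iff_ne_zero]
      intro h0
      rw [Int.gcd_eq_zero_iff] at h0
      exact hne h0.1 h0.2
    obtain ⟨a, b, hab, hp, hq⟩ := Int.exists_gcd_one hg
    refine Zs_rat k i y hy hy0 a b (Int.isCoprime_iff_gcd_eq_one.2 hab) ?_
    have hgr : ((Int.gcd p q : ℤ) : ℝ) ≠ 0 := by exact_mod_cast hg.ne'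
    have h1 : ((Int.gcd p q : ℤ) : ℝ) * ((a : ℝ) * y (i + 1) + (b : ℝ) * y (i + 2)) = 0 := by
      have e1 : (p : ℝ) = (a : ℝ) * ((Int.gcd p q : ℤ) : ℝ) := by
        rw [← Int.cast_mul, ← hp]
      have e2 : (q : ℝ) = (b : ℝ) * ((Int.gcd p q : ℤ) : ℝ) := by
        rw [← Int.cast_mul, ← hq]
      rw [e1, e2] at hpq
      linear_combination hpq
    exact (mul_eq_zero.1 h1).resolve_left hgr

/-! ### lower bounds -/

lemma axis_subset_Zs {k : ℕ} {i : Fin 3} {y : Fin 3 → ℝ} (hy : y i = 0) :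
    axis k i ⊆ Zs k i y := by
  rintro g ⟨hg, hgi⟩
  refine ⟨hg, ?_⟩
  have h1 := congrFun (congrFun (ball_orth hg) i) i
  rw [Matrix.mul_apply, Matrix.one_apply_eq, sum_cyc i] at h1
  simp only [Matrix.transpose_apply] at h1
  have z1 : g i (i + 1) = 0 := by nlinarith [sq_nonneg (g i (i + 1)), sq_nonneg (g i (i + 2))]
  have z2 : g i (i + 2) = 0 := by nlinarith [sq_nonneg (g i (i + 1)), sq_nonneg (g i (i + 2))]
  show ∑ j, g i j * y j = 0
  rw [sum_cyc i, hy, z1, z2]
  ring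

lemma MZ_mod_sq : ∀ i : Fin 3,
    (MZ (i, true)).map (Int.cast : ℤ → ZMod 5) * (MZ (i, true)).map (Int.cast : ℤ → ZMod 5) =
      (4 : ZMod 5) • (MZ (i, true)).map (Int.cast : ℤ → ZMod 5) := by decide

lemma MZ_mod_ne : ∀ i : Fin 3, ∀ c : ZMod 5, c ≠ 0 →
    c • (MZ (i, true)).map (Int.cast : ℤ → ZMod 5) ≠ 0 := by decide

lemma R_pow_ne_one (i : Fin 3) (m : ℕ) : R i ^ (m + 1) ≠ 1 := by
  intro h
  have h1 : R i = (1 / 5 : ℝ) • cst (MZ (i, true)) := L_eq (i, true)
  rw [h1, smul_pow, ← map_pow] at h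
  have h2 : cst (MZ (i, true) ^ (m + 1)) = cst ((5 : ℤ) ^ (m + 1) • 1) := by
    have h3 := congrArg (fun M => (5 : ℝ) ^ (m + 1) • M) h
    simp only [smul_smul, ← mul_pow] at h3
    norm_num at h3
    rw [map_pow, h3]
    ext r c
    rw [cst_apply, Matrix.smul_apply, Matrix.smul_apply, Matrix.one_apply, Matrix.one_apply]
    split_ifs <;> simp
  have h4 : MZ (i, true) ^ (m + 1) = (5 : ℤ) ^ (m + 1) • 1 := by
    ext r c
    have := congrFun (congrFun h2 r) c
    rw [cst_apply, cst_apply] at this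
    exact_mod_cast this
  have h5 : ∀ m : ℕ, ((Int.castRingHom (ZMod 5)).mapMatrix (MZ (i, true))) ^ (m + 1) =
      (4 : ZMod 5) ^ m • (Int.castRingHom (ZMod 5)).mapMatrix (MZ (i, true)) := by
    intro m
    induction m with
    | zero => simp
    | succ m ih =>
      rw [pow_succ, ih, Matrix.smul_mul]
      have h6 : (Int.castRingHom (ZMod 5)).mapMatrix (MZ (i, true)) *
          (Int.castRingHom (ZMod 5)).mapMatrix (MZ (i, true)) =
          (4 : ZMod 5) • (Int.castRingHom (ZMod 5)).mapMatrix (MZ (i, true)) := MZ_mod_sq i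
      rw [h6, smul_smul, pow_succ]
  have h7 := congrArg ((Int.castRingHom (ZMod 5)).mapMatrix) h4
  rw [map_pow, h5] at h7
  have h8 : (Int.castRingHom (ZMod 5)).mapMatrix ((5 : ℤ) ^ (m + 1) •
      (1 : Matrix (Fin 3) (Fin 3) ℤ)) = 0 := by
    ext r c
    show ((((5 : ℤ) ^ (m + 1) • (1 : Matrix (Fin 3) (Fin 3) ℤ)) r c : ℤ) : ZMod 5) = 0
    rw [Matrix.smul_apply, smul_eq_mul, Int.cast_mul, pow_succ, Int.cast_mul]
    have : ((5 : ℤ) : ZMod 5) = 0 := by decide
    rw [this]; ring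
  rw [h8] at h7
  have h10 : (4 : ZMod 5) ≠ 0 := by decide
  haveI : Fact (Nat.Prime 5) := ⟨by norm_num⟩
  exact MZ_mod_ne i _ (pow_ne_zero m h10) h7

lemma R_mem (i : Fin 3) (k j : ℕ) (hj : j ≤ k) : R i ^ j ∈ ball k := by
  refine ⟨List.replicate j (i, true), by simpa using hj, ?_⟩
  rw [List.map_replicate, List.prod_replicate]
  rfl

lemma R_fix (i : Fin 3) (j : ℕ) : (R i ^ j) i i = 1 := by
  have h1 : ∀ c : Fin 3, R i i c = if c = i then 1 else 0 := by
    intro c
    fin_cases i <;> fin_cases c <;> simp [R]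
  have h2 : ∀ j : ℕ, ∀ c : Fin 3, (R i ^ j) i c = if c = i then 1 else 0 := by
    intro j
    induction j with
    | zero => intro c; simp [Matrix.one_apply, eq_comm]
    | succ j ih =>
      intro c
      rw [pow_succ, Matrix.mul_apply]
      simp only [ih]
      simp [h1]
  simpa using h2 j i

lemma axis_lower (k : ℕ) (i : Fin 3) : k + 1 ≤ (axis k i).ncard := by
  have hinj : Set.InjOn (fun j : ℕ => R i ^ j) (Set.Iic k) := by
    have key : ∀ j m : ℕ, R i ^ (j + (m + 1)) ≠ R i ^ j := by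
      intro j m h
      rw [pow_add] at h
      have h1 : (R i ^ j)ᵀ * (R i ^ j) = 1 := by
        have := ball_orth (ball_transpose (R_mem i j j le_rfl))
        simpa using this
      have h2 := congrArg (fun M => (R i ^ j)ᵀ * M) h
      simp only [← Matrix.mul_assoc, h1, Matrix.one_mul] at h2
      exact R_pow_ne_one i m h2
    intro a _ b _ hab
    simp only at hab
    rcases lt_trichotomy a b with h | h | h
    · obtain ⟨m, rfl⟩ := Nat.exists_eq_add_of_lt h
      exact absurd hab.symm (by rw [add_assoc]; exact key a m)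
    · exact h
    · obtain ⟨m, rfl⟩ := Nat.exists_eq_add_of_lt h
      exact absurd hab (by rw [add_assoc]; exact key b m)
  have h1 : (fun j : ℕ => R i ^ j) '' Set.Iic k ⊆ axis k i := by
    rintro g ⟨j, hj, rfl⟩
    refine ⟨R_mem i k j hj, ?_⟩
    show ((R i ^ j) i i) ^ 2 = 1
    rw [R_fix]; norm_num
  have h2 := Set.ncard_le_ncard h1 (axis_finite k i)
  rw [Set.ncard_image_of_injOn hinj] at h2
  have h3 : (Set.Iic k).ncard = k + 1 := by
    rw [← Finset.coe_Iic, Set.ncard_coe_finset, Nat.card_Iic]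
  omega

lemma ncard_le_pow (k : ℕ) : (ball k).ncard ≤ 7 ^ k := by
  induction k with
  | zero =>
    have : ball 0 ⊆ {1} := by
      rintro g ⟨l, hl, rfl⟩
      have : l = [] := List.length_eq_zero_iff.1 (by omega)
      subst this
      simp
    have h := Set.ncard_le_ncard this (Set.finite_singleton _)
    simpa using h
  | succ k ih =>
    let f : Option (Fin 3 × Bool) × Matrix (Fin 3) (Fin 3) ℝ → Matrix (Fin 3) (Fin 3) ℝ :=
      fun p => (p.1.elim 1 L) * p.2
    have hsub : ball (k + 1) ⊆ f '' ((Set.univ : Set (Option (Fin 3 × Bool))) ×ˢ ball k) := by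
      rintro g ⟨l, hl, rfl⟩
      cases l with
      | nil => exact ⟨(none, 1), ⟨trivial, ⟨[], by simp, by simp⟩⟩, by simp [f]⟩
      | cons a l =>
        exact ⟨(some a, (l.map L).prod), ⟨trivial, ⟨l, by simpa using hl, rfl⟩⟩, by simp [f]⟩
    have hfin : ((Set.univ : Set (Option (Fin 3 × Bool))) ×ˢ ball k).Finite :=
      Set.finite_univ.prod (ball_finite k)
    refine (Set.ncard_le_ncard hsub (hfin.image f)).trans ((Set.ncard_image_le hfin).trans ?_)
    rw [Set.ncard_prod, Set.ncard_univ]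
    simp only [Nat.card_eq_fintype_card, Fintype.card_option, Fintype.card_prod, Fintype.card_fin,
      Fintype.card_bool]
    rw [pow_succ]
    omega

end Pool.Agent.H36L
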